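import Mathlib

/-!
# Some facts on absolutely continuous functions on an interval
-/

open MeasureTheory Set Filter

namespace Q195.AC

variable {f g : ℝ → ℝ} {a b c : ℝ}

theorem congr (hf : AbsolutelyContinuousOnInterval f a b) (h : ∀ t ∈ uIcc a b, f t = g t) :
    AbsolutelyContinuousOnInterval g a b := by
  rw [absolutelyContinuousOnInterval_iff] at hf ⊢
  intro ε hε
  obtain ⟨δ, hδ, H⟩ := hf ε hε
  refine ⟨δ, hδ, fun E hE hE' => ?_⟩
  have := H E hE hE'
  refine lt_of_eq_of_lt (Finset.sum_congr rfl fun i hi => ?_) this
  have h1 := hE.1 i hi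
  rw [h _ h1.1, h _ h1.2]

theorem lip {φ : ℝ → ℝ} {K : ℝ} (hφ : ∀ x y, |φ x - φ y| ≤ K * |x - y|)
    (hf : AbsolutelyContinuousOnInterval f a b) :
    AbsolutelyContinuousOnInterval (fun t => φ (f t)) a b := by
  unfold AbsolutelyContinuousOnInterval at hf ⊢
  have h2 := hf.const_mul K
  rw [mul_zero] at h2
  refine squeeze_zero (fun E => Finset.sum_nonneg fun _ _ => dist_nonneg) (fun E => ?_) h2
  rw [Finset.mul_sum]
  refine Finset.sum_le_sum fun i _ => ?_
  simpa [Real.dist_eq] using hφ _ _

theorem const (r : ℝ) : AbsolutelyContinuousOnInterval (fun _ => r) a b := by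
  have : LipschitzOnWith 0 (fun _ : ℝ => r) (uIcc a b) := by
    intro x _ y _
    simp
  exact this.absolutelyContinuousOnInterval

theorem sum {ι : Type*} (s : Finset ι) {F : ι → ℝ → ℝ}
    (hF : ∀ i ∈ s, AbsolutelyContinuousOnInterval (F i) a b) :
    AbsolutelyContinuousOnInterval (fun t => ∑ i ∈ s, F i t) a b := by
  classical
  induction s using Finset.induction_on with
  | empty => simpa using const (a := a) (b := b) 0
  | insert i s hi ih =>
    simp only [Finset.sum_insert hi]
    exact (hF i (Finset.mem_insert_self _ _)).fun_add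
      (ih fun j hj => hF j (Finset.mem_insert_of_mem hj))

theorem pow (hf : AbsolutelyContinuousOnInterval f a b) (n : ℕ) :
    AbsolutelyContinuousOnInterval (fun t => f t ^ n) a b := by
  induction n with
  | zero => simpa using const (a := a) (b := b) 1
  | succ n ih =>
    simp only [pow_succ]
    exact ih.fun_mul hf

theorem polyEval (hf : AbsolutelyContinuousOnInterval f a b) (P : Polynomial ℝ) :
    AbsolutelyContinuousOnInterval (fun t => P.eval (f t)) a b := by
  simp only [Polynomial.eval_eq_sum_range]
  exact sum _ fun i _ => (pow hf i).const_mul _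

theorem of_deriv (hf : ∀ t, HasDerivAt f (g t) t) (hg : Continuous g) :
    AbsolutelyContinuousOnInterval f a b := by
  have h1 : ContDiff ℝ 1 f := by
    rw [contDiff_one_iff_deriv]
    refine ⟨fun t => (hf t).differentiableAt, ?_⟩
    have : deriv f = g := funext fun t => (hf t).deriv
    rw [this]; exact hg
  exact h1.contDiffOn.absolutelyContinuousOnInterval

theorem glue (hab : a ≤ b) (hbc : b ≤ c) (h1 : AbsolutelyContinuousOnInterval f a b)
    (h2 : AbsolutelyContinuousOnInterval f b c) : AbsolutelyContinuousOnInterval f a c := by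
  have i1 := h1.intervalIntegrable_deriv
  have i2 := h2.intervalIntegrable_deriv
  have i3 : IntervalIntegrable (deriv f) volume a c := i1.trans i2
  have h3 : AbsolutelyContinuousOnInterval (fun x => ∫ v in a..x, deriv f v) a c :=
    i3.absolutelyContinuousOnInterval_intervalIntegral (by simp)
  refine congr ((const (a := a) (b := c) (f a)).fun_add h3) fun t ht => ?_
  rw [uIcc_of_le (hab.trans hbc)] at ht
  rcases le_total t b with h | h
  · have h4 : AbsolutelyContinuousOnInterval f a t := h1.mono (by
      rw [uIcc_of_le hab, uIcc_of_le ht.1]; exact Icc_subset_Icc_right h)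
    rw [h4.integral_deriv_eq_sub]; ring
  · have h4 : AbsolutelyContinuousOnInterval f b t := h2.mono (by
      rw [uIcc_of_le hbc, uIcc_of_le h]; exact Icc_subset_Icc_right ht.2)
    rw [← intervalIntegral.integral_add_adjacent_intervals i1 h4.intervalIntegrable_deriv,
      h4.integral_deriv_eq_sub, h1.integral_deriv_eq_sub]; ring

end Q195.AC
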