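import Mathlib

/-!
# The jet space `J^k` as a sub-Riemannian manifold: definitions

The coordinates are `(x, u_0, …, u_k)`; a point is a pair `(x, u)` with `u : Fin (k+1) → ℝ`.
-/

open MeasureTheory Set

namespace Q195.Jet

/-- The jet space `J^k` in the coordinates `(x, u_0, …, u_k)`; vectors and covectors are written
in the same coordinates. -/
abbrev J (k : ℕ) : Type := ℝ × (Fin (k + 1) → ℝ)

/-- The vector field `X₁ = ∂_x + ∑_{j<k} u_{j+1} ∂_{u_j}`. -/
def X₁ (k : ℕ) (q : J k) : J k :=
  (1, fun j => if h : (j : ℕ) < k then q.2 ⟨(j : ℕ) + 1, Nat.succ_lt_succ h⟩ else 0)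

/-- The vector field `X₂ = ∂_{u_k}`. -/
def X₂ (k : ℕ) (_q : J k) : J k := (0, Pi.single (Fin.last k) 1)

/-- The pairing of a covector with a vector. -/
def pairing {k : ℕ} (p v : J k) : ℝ := p.1 * v.1 + ∑ j, p.2 j * v.2 j

/-- The normal sub-Riemannian Hamiltonian `H = ½ (⟨p, X₁⟩² + ⟨p, X₂⟩²)`. -/
noncomputable def H (k : ℕ) (q p : J k) : ℝ :=
  (pairing p (X₁ k q) ^ 2 + pairing p (X₂ k q) ^ 2) / 2

/-- The vector of all first partial derivatives of a function in the coordinates of `J^k`. -/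
noncomputable def grad {k : ℕ} (f : J k → ℝ) (z : J k) : J k :=
  (deriv (fun y => f (y, z.2)) z.1,
    fun j => deriv (fun y => f (z.1, Function.update z.2 j y)) (z.2 j))

/-- `γ : ℝ → J^k` is a geodesic: the projection of a trajectory `(γ, p)` of the Hamiltonian flow
of `H` on the level `H = 1/2`. -/
def IsGeodesic (k : ℕ) (γ : ℝ → J k) : Prop :=
  ∃ p : ℝ → J k,
    (∀ t, HasDerivAt γ (grad (fun p' => H k (γ t) p') (p t)) t) ∧
    (∀ t, HasDerivAt p (-grad (fun q' => H k q' (p t)) (γ t)) t) ∧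
    ∀ t, H k (γ t) (p t) = 1 / 2

/-- `c` is a horizontal curve on `[a, b]`: its coordinates are absolutely continuous and
`du_j - u_{j+1} dx` vanishes on the velocity at almost every time, for all `j < k`. -/
structure IsHorizontal (k : ℕ) (c : ℝ → J k) (a b : ℝ) : Prop where
  acx : AbsolutelyContinuousOnInterval (fun t => (c t).1) a b
  acu : ∀ j, AbsolutelyContinuousOnInterval (fun t => (c t).2 j) a b
  contact : ∀ᵐ t, t ∈ Set.Icc a b → ∀ j : Fin k,
    deriv (fun s => (c s).2 j.castSucc) t = (c t).2 j.succ * deriv (fun s => (c s).1) t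

/-- The length of a horizontal curve on `[a, b]`. Its velocity is `x' X₁ + u_k' X₂`, of norm
`√(x'² + u_k'²)`, as `X₁`, `X₂` are orthonormal. -/
noncomputable def length (k : ℕ) (c : ℝ → J k) (a b : ℝ) : ℝ :=
  ∫ t in a..b, Real.sqrt (deriv (fun s => (c s).1) t ^ 2 +
    deriv (fun s => (c s).2 (Fin.last k)) t ^ 2)

/-- The Carnot–Carathéodory distance: the infimum of the lengths of the horizontal curves
from `p` to `q`. -/
noncomputable def ccDist (k : ℕ) (p q : J k) : ℝ :=
  sInf {L : ℝ | ∃ (a b : ℝ) (c : ℝ → J k), a ≤ b ∧ IsHorizontal k c a b ∧ c a = p ∧ c b = q ∧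
    L = length k c a b}

/-- The cut time of `c`: the supremum of all `t > 0` such that the restriction of `c` to `[0, t]`
realizes the distance between its endpoints. -/
noncomputable def cutTime (k : ℕ) (c : ℝ → J k) : EReal :=
  ⨆ (t : ℝ) (_ : 0 < t ∧ length k c 0 t = ccDist k (c 0) (c t)), (t : EReal)

/-- `γ` is equi-optimal: the cut time of the shifted curve `γ_s(t) = γ(t - s)` is the same for
all `s`. -/
def EquiOptimal (k : ℕ) (γ : ℝ → J k) : Prop :=
  ∀ s s' : ℝ, cutTime k (fun t => γ (t - s)) = cutTime k (fun t => γ (t - s'))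

end Q195.Jet
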