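import Pool.Agent.Q195.JetCut.Reach

/-!
# Geodesics of `J^k` from polynomials
-/

open MeasureTheory Set Polynomial Filter

namespace Q195.Jet

variable {k : ℕ}

/-- The iterated primitives giving the `u`-coordinates: `U i` is `u_{k-i}`. -/
noncomputable def U (F : ℝ[X]) (x v : ℝ → ℝ) : ℕ → ℝ → ℝ
  | 0 => fun t => ∫ s in (0 : ℝ)..t, F.eval (x s)
  | i + 1 => fun t => ∫ s in (0 : ℝ)..t, U F x v i s * v s

/-- The velocities of the `U i`. -/
noncomputable def U' (F : ℝ[X]) (x v : ℝ → ℝ) : ℕ → ℝ → ℝ
  | 0 => fun t => F.eval (x t)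
  | i + 1 => fun t => U F x v i t * v t

theorem U_props (F : ℝ[X]) {x v : ℝ → ℝ} (hx : Continuous x) (hv : Continuous v) (i : ℕ) :
    Continuous (U F x v i) ∧ Continuous (U' F x v i) ∧
      ∀ t, HasDerivAt (U F x v i) (U' F x v i t) t := by
  have main : ∀ g : ℝ → ℝ, Continuous g → ∀ t,
      HasDerivAt (fun t => ∫ s in (0 : ℝ)..t, g s) (g t) t := fun g hg t =>
    intervalIntegral.integral_hasDerivAt_right (hg.intervalIntegrable _ _)
      hg.stronglyMeasurable.stronglyMeasurableAtFilter hg.continuousAt
  induction i with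
  | zero =>
    have hg : Continuous (fun t => F.eval (x t)) := F.continuous.comp hx
    have hd := main _ hg
    exact ⟨continuous_iff_continuousAt.2 fun t => (hd t).continuousAt, hg, hd⟩
  | succ i ih =>
    have hg : Continuous (fun t => U F x v i t * v t) := ih.1.mul hv
    have hd := main _ hg
    exact ⟨continuous_iff_continuousAt.2 fun t => (hd t).continuousAt, hg, hd⟩

/-- The curve in `J^k` with `x`-coordinate `x` and `u_k' = F(x)`. -/
noncomputable def curve (k : ℕ) (F : ℝ[X]) (x v : ℝ → ℝ) (t : ℝ) : J k :=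
  (x t, fun j => U F x v (k - (j : ℕ)) t)

theorem update_hasDerivAt (u : Fin (k + 1) → ℝ) (j i : Fin (k + 1)) (y : ℝ) :
    HasDerivAt (fun y => Function.update u j y i) (if i = j then 1 else 0) y := by
  by_cases h : i = j
  · subst h
    simp only [Function.update_self, if_true]
    exact hasDerivAt_id y
  · simpa [h, Function.update_of_ne h] using hasDerivAt_const y (u i)

theorem pairing_X₁ (p q : J k) :
    pairing p (X₁ k q) = p.1 + ∑ i : Fin k, p.2 i.castSucc * q.2 i.succ := by
  unfold pairing X₁
  rw [Fin.sum_univ_castSucc]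
  simp [Fin.succ]

theorem pairing_X₂ (p q : J k) : pairing p (X₂ k q) = p.2 (Fin.last k) := by
  unfold pairing X₂
  simp [Pi.single_apply]

theorem grad_p (q p : J k) : grad (fun p' => H k q p') p
    = pairing p (X₁ k q) • X₁ k q + pairing p (X₂ k q) • X₂ k q := by
  have h1 : ∀ v : J k, HasDerivAt (fun y => pairing ((y, p.2) : J k) v) v.1 p.1 := by
    intro v
    unfold pairing
    simpa using ((hasDerivAt_id p.1).mul_const v.1).add_const (∑ j, p.2 j * v.2 j)
  have h2 : ∀ (v : J k) (j : Fin (k + 1)),
      HasDerivAt (fun y => pairing ((p.1, Function.update p.2 j y) : J k) v) (v.2 j) (p.2 j) := by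
    intro v j
    unfold pairing
    have := (HasDerivAt.fun_sum (u := Finset.univ) fun i _ =>
      (update_hasDerivAt p.2 j i (p.2 j)).mul_const (v.2 i)).const_add (p.1 * v.1)
    refine this.congr_deriv ?_
    simp
  have h3 : ∀ (f g : ℝ → ℝ) (f' g' y : ℝ), HasDerivAt f f' y → HasDerivAt g g' y →
      deriv (fun y => (f y ^ 2 + g y ^ 2) / 2) y = f y * f' + g y * g' := by
    intro f g f' g' y hf hg
    have := ((hf.fun_pow 2).add (hg.fun_pow 2)).div_const 2
    have h4 := this.deriv
    simp only [Pi.add_apply] at h4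
    refine h4.trans ?_
    push_cast
    ring
  refine Prod.ext ?_ (funext fun j => ?_)
  · have := h3 _ _ _ _ p.1 (h1 (X₁ k q)) (h1 (X₂ k q))
    simp only [grad, H]
    rw [this]
    simp
  · have := h3 _ _ _ _ (p.2 j) (h2 (X₁ k q) j) (h2 (X₂ k q) j)
    simp only [grad, H]
    rw [this]
    simp

theorem grad_q (q p : J k) : grad (fun q' => H k q' p) q
    = (0, fun j => pairing p (X₁ k q) *
        ∑ i : Fin k, p.2 i.castSucc * (if i.succ = j then 1 else 0)) := by
  refine Prod.ext ?_ (funext fun j => ?_)
  · simp only [grad, H, pairing_X₁, pairing_X₂]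
    simp
  · simp only [grad, H, pairing_X₁, pairing_X₂]
    have h1 : HasDerivAt (fun y => p.1 + ∑ i : Fin k, p.2 i.castSucc *
        Function.update q.2 j y i.succ)
        (∑ i : Fin k, p.2 i.castSucc * (if i.succ = j then 1 else 0)) (q.2 j) :=
      (HasDerivAt.fun_sum (u := Finset.univ) fun i _ =>
        (update_hasDerivAt q.2 j i.succ (q.2 j)).const_mul (p.2 i.castSucc)).const_add p.1
    have h2 := (((h1.fun_pow 2).add_const (p.2 (Fin.last k) ^ 2)).div_const 2).deriv
    refine h2.trans ?_
    simp only [Function.update_eq_self]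
    push_cast
    ring

theorem curve_geodesic {F : ℝ[X]} (hF : F.natDegree ≤ k) {x v : ℝ → ℝ}
    (hx : ∀ t, HasDerivAt x (v t) t)
    (hv : ∀ t, HasDerivAt v (-(F.eval (x t) * (derivative F).eval (x t))) t)
    (h1 : ∀ t, v t ^ 2 + F.eval (x t) ^ 2 = 1) : IsGeodesic k (curve k F x v) := by
  have cx : Continuous x := continuous_iff_continuousAt.2 fun t => (hx t).continuousAt
  have cv : Continuous v := continuous_iff_continuousAt.2 fun t => (hv t).continuousAt
  have hU := fun i => (U_props F cx cv i).2.2
  set γ := curve k F x v with hγ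
  have hγx : ∀ t, HasDerivAt (fun s => (γ s).1) (v t) t := hx
  have hγu : ∀ (j : Fin (k + 1)) t,
      HasDerivAt (fun s => (γ s).2 j) (U' F x v (k - (j : ℕ)) t) t := fun j t => hU _ t
  have hcon : ∀ (j : Fin k) t, U' F x v (k - ((j.castSucc : Fin (k + 1)) : ℕ)) t
      = (γ t).2 j.succ * v t := by
    intro j t
    have hj := j.2
    have e : k - ((j.castSucc : Fin (k + 1)) : ℕ) = (k - ((j.succ : Fin (k + 1)) : ℕ)) + 1 := by
      rw [Fin.val_succ, Fin.val_castSucc]; omega
    rw [e]
    rfl
  have hz : derivative^[k + 1] F = 0 := Polynomial.iterate_derivative_eq_zero (by omega)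
  have hdeg' : (derivative F).natDegree ≤ k :=
    (Polynomial.natDegree_derivative_le F).trans (by omega)
  have hW : ∀ t, HasDerivAt (fun s => W k (derivative F) (γ s))
      ((derivative F).eval (x t) * F.eval (x t)) t := by
    intro t
    have := W_hasDerivAt (k := k) hdeg' (hγx t) (fun j => hγu j t) (fun j => hcon j t)
    refine this.congr_deriv ?_
    simp [U', hγ, curve]
  set p : ℝ → J k := fun t => (v 0 + W k (derivative F) (γ 0),
    fun j => (-1) ^ (k - (j : ℕ)) * (derivative^[k - (j : ℕ)] F).eval (x t)) with hp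
  have hpair : ∀ t, pairing (p t) (X₁ k (γ t))
      = v 0 + W k (derivative F) (γ 0) - W k (derivative F) (γ t) := by
    intro t
    rw [pairing_X₁]
    simp only [hp]
    unfold W
    rw [Fin.sum_univ_succ (n := k) (f := fun j : Fin (k + 1) => (-1) ^ (k - (j : ℕ)) *
      (derivative^[k - (j : ℕ)] (derivative F)).eval (γ t).1 * (γ t).2 j)]
    have e0 : derivative^[k] (derivative F) = 0 := by
      rw [← Function.iterate_succ_apply]; exact hz
    simp only [Fin.val_zero, Nat.sub_zero, e0, Polynomial.eval_zero, mul_zero, zero_mul, zero_add]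
    rw [sub_eq_add_neg, ← Finset.sum_neg_distrib]
    congr 1
    refine Finset.sum_congr rfl fun i _ => ?_
    have hi := i.2
    have e : k - ((i.castSucc : Fin (k + 1)) : ℕ) = (k - ((i.succ : Fin (k + 1)) : ℕ)) + 1 := by
      rw [Fin.val_succ, Fin.val_castSucc]; omega
    rw [e, Function.iterate_succ_apply, pow_succ]
    simp only [hγ, curve]
    ring
  have hP1 : ∀ t, pairing (p t) (X₁ k (γ t)) = v t := by
    intro t
    rw [hpair]
    have hd : ∀ t, HasDerivAt (fun t => v t + W k (derivative F) (γ t)) 0 t := by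
      intro t
      refine ((hv t).add (hW t)).congr_deriv ?_
      ring
    have := is_const_of_deriv_eq_zero (fun t => (hd t).differentiableAt)
      (fun t => (hd t).deriv) t 0
    have this' : v t + W k (derivative F) (γ t) = v 0 + W k (derivative F) (γ 0) := this
    linarith
  have hP2 : ∀ t, pairing (p t) (X₂ k (γ t)) = F.eval (x t) := by
    intro t
    rw [pairing_X₂]
    simp [hp]
  refine ⟨p, fun t => ?_, fun t => ?_, fun t => ?_⟩
  · rw [grad_p, hP1, hP2]
    have h2 : HasDerivAt γ (v t, fun j => U' F x v (k - (j : ℕ)) t) t :=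
      (hγx t).prodMk (hasDerivAt_pi.2 fun j => hγu j t)
    refine h2.congr_deriv ?_
    refine Prod.ext ?_ (funext fun j => ?_)
    · simp [X₁, X₂]
    · refine Fin.lastCases ?_ (fun i => ?_) j
      · simp [X₁, X₂, U']
      · have hci := hcon i t
        have : (Pi.single (Fin.last k) (1 : ℝ) : Fin (k + 1) → ℝ) i.castSucc = 0 := by
          rw [Pi.single_apply, if_neg (Fin.castSucc_lt_last i).ne]
        have hi := i.2
        simp only [X₁, X₂, Prod.snd_add, Prod.smul_snd, Pi.add_apply, Pi.smul_apply, this,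
          smul_eq_mul, mul_zero, add_zero, dif_pos hi, hci]
        simp only [Fin.val_castSucc, dif_pos hi]
        rw [mul_comm]
        rfl
  · rw [grad_q, hP1]
    have h2 : ∀ j : Fin (k + 1), HasDerivAt
        (fun s => (-1) ^ (k - (j : ℕ)) * (derivative^[k - (j : ℕ)] F).eval (x s))
        ((-1) ^ (k - (j : ℕ)) * ((derivative^[k - (j : ℕ) + 1] F).eval (x t) * v t)) t := by
      intro j
      have h2 : HasDerivAt (fun s => (derivative^[k - (j : ℕ)] F).eval (x s))
          ((derivative^[k - (j : ℕ) + 1] F).eval (x t) * v t) t := by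
        rw [Function.iterate_succ_apply']
        exact ((derivative^[k - (j : ℕ)] F).hasDerivAt (x t)).comp t (hx t)
      exact h2.const_mul _
    have h3 : HasDerivAt p (0, fun j => (-1) ^ (k - (j : ℕ)) *
        ((derivative^[k - (j : ℕ) + 1] F).eval (x t) * v t)) t :=
      (hasDerivAt_const t _).prodMk (hasDerivAt_pi.2 fun j => h2 j)
    refine h3.congr_deriv ?_
    refine Prod.ext (by simp) (funext fun j => ?_)
    refine Fin.cases ?_ (fun i => ?_) j
    · simp [hz]
    · have hi := i.2
      have e : k - (i : ℕ) = (k - ((i : ℕ) + 1)) + 1 := by omega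
      have hs : ∑ i' : Fin k, (p t).2 i'.castSucc * (if i'.succ = i.succ then (1 : ℝ) else 0)
          = (p t).2 i.castSucc := by
        rw [Finset.sum_eq_single i]
        · simp
        · intro b _ hb
          rw [if_neg (fun h => hb (Fin.succ_injective _ h)), mul_zero]
        · intro h; exact absurd (Finset.mem_univ i) h
      simp only [Prod.snd_neg, Pi.neg_apply, hs, Fin.val_succ]
      simp only [hp, Fin.val_castSucc, e, pow_succ]
      ring
  · unfold H
    rw [hP1, hP2, h1]

end Q195.Jet
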