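import Pool.Agent.Q195.JetCut.Geod

/-!
# A geodesic of `J^k`, `k ≥ 3`, that is not equi-optimal
-/

open MeasureTheory Set Polynomial Filter

namespace Q195.Jet

variable {k : ℕ}

/-- The polynomial `F(x) = (3x - x³)/2`. -/
noncomputable def F : ℝ[X] := C (3 / 2) * X - C (1 / 2) * X ^ 3

theorem F_eval (x : ℝ) : F.eval x = 3 / 2 * x - 1 / 2 * x ^ 3 := by simp [F]

theorem F'_eval (x : ℝ) : (derivative F).eval x = 3 / 2 - 3 / 2 * x ^ 2 := by
  simp [F]
  ring

theorem F_deg (hk : 3 ≤ k) : F.natDegree ≤ k := by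
  refine le_trans ?_ hk
  unfold F
  compute_degree

/-- `exp (√3 t)`. -/
noncomputable def E (t : ℝ) : ℝ := Real.exp (Real.sqrt 3 * t)

/-- `√(E² + E + 1)`. -/
noncomputable def D (t : ℝ) : ℝ := Real.sqrt (E t ^ 2 + E t + 1)

/-- The `x`-coordinate of the geodesic. -/
noncomputable def xx (t : ℝ) : ℝ := (E t - 1) / D t

/-- The `x`-velocity of the geodesic. -/
noncomputable def vv (t : ℝ) : ℝ := 3 * Real.sqrt 3 * E t * (E t + 1) / (2 * D t ^ 3)

theorem E_pos (t : ℝ) : 0 < E t := Real.exp_pos _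

theorem D_pos (t : ℝ) : 0 < D t := Real.sqrt_pos.2 (by have := E_pos t; positivity)

theorem D_sq (t : ℝ) : D t ^ 2 = E t ^ 2 + E t + 1 :=
  Real.sq_sqrt (by have := E_pos t; positivity)

theorem xx_deriv (t : ℝ) : HasDerivAt xx (vv t) t := by
  have hE := E_pos t
  have hD := D_pos t
  have hD2 := D_sq t
  have h1 : HasDerivAt E (E t * Real.sqrt 3) t := by
    have := ((hasDerivAt_id t).const_mul (Real.sqrt 3)).exp
    rw [mul_one] at this
    exact this
  have h2 : HasDerivAt D ((2 * E t * (E t * Real.sqrt 3) + E t * Real.sqrt 3) / (2 * D t)) t := by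
    have h3 : HasDerivAt (fun t => E t ^ 2 + E t + 1)
        (2 * E t * (E t * Real.sqrt 3) + E t * Real.sqrt 3) t := by
      have := ((h1.fun_pow 2).add h1).add_const 1
      refine this.congr_deriv ?_
      push_cast; ring
    exact h3.sqrt (by positivity)
  have h4 := (h1.sub_const 1).div h2 hD.ne'
  refine h4.congr_deriv ?_
  unfold vv
  rw [div_eq_div_iff (by positivity) (by positivity)]
  field_simp
  rw [hD2]
  ring

theorem one_sub_sq (t : ℝ) : 1 - xx t ^ 2 = 3 * E t / D t ^ 2 := by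
  have hD := D_pos t
  unfold xx
  rw [div_pow, eq_div_iff (by positivity), sub_mul, div_mul_cancel₀ _ (by positivity), D_sq]
  ring

theorem four_sub_sq (t : ℝ) : 4 - xx t ^ 2 = 3 * (E t + 1) ^ 2 / D t ^ 2 := by
  have hD := D_pos t
  unfold xx
  rw [div_pow, eq_div_iff (by positivity), sub_mul, div_mul_cancel₀ _ (by positivity), D_sq]
  ring

theorem sqrt_four_sub (t : ℝ) : Real.sqrt (4 - xx t ^ 2) = Real.sqrt 3 * (E t + 1) / D t := by
  have hD := D_pos t
  have hE := E_pos t
  rw [four_sub_sq, Real.sqrt_div (by positivity), Real.sqrt_mul (by norm_num),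
    Real.sqrt_sq (by positivity), Real.sqrt_sq hD.le]

theorem vv_eq (t : ℝ) : vv t = (1 - xx t ^ 2) * Real.sqrt (4 - xx t ^ 2) / 2 := by
  have hD := D_pos t
  rw [sqrt_four_sub, one_sub_sq]
  unfold vv
  field_simp

theorem vv_pos (t : ℝ) : 0 < vv t := by
  have hD := D_pos t
  have hE := E_pos t
  unfold vv
  positivity

theorem xx_sq_lt (t : ℝ) : xx t ^ 2 < 1 := by
  have hD := D_pos t
  have hE := E_pos t
  have h := one_sub_sq t
  have : 0 < 3 * E t / D t ^ 2 := by positivity
  linarith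

theorem xx_abs_lt (t : ℝ) : |xx t| < 1 := by
  have := xx_sq_lt t
  rwa [sq_lt_one_iff_abs_lt_one] at this

theorem vv_deriv (t : ℝ) :
    HasDerivAt vv (-(F.eval (xx t) * (derivative F).eval (xx t))) t := by
  have hx := xx_sq_lt t
  have h0 : 0 < 4 - xx t ^ 2 := by linarith
  have hs := Real.sqrt_pos.2 h0
  have hs2 := Real.sq_sqrt h0.le
  have e : vv = fun t => (1 - xx t ^ 2) * Real.sqrt (4 - xx t ^ 2) / 2 := funext vv_eq
  have h1 : HasDerivAt (fun t => 1 - xx t ^ 2) (-(2 * xx t * vv t)) t := by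
    have := ((xx_deriv t).fun_pow 2).const_sub 1
    refine this.congr_deriv ?_
    push_cast; ring
  have h2 : HasDerivAt (fun t => 4 - xx t ^ 2) (-(2 * xx t * vv t)) t := by
    have := ((xx_deriv t).fun_pow 2).const_sub 4
    refine this.congr_deriv ?_
    push_cast; ring
  have h3 := (h1.mul (h2.sqrt h0.ne')).div_const 2
  rw [e]
  refine h3.congr_deriv ?_
  rw [F_eval, F'_eval, vv_eq]
  set s := Real.sqrt (4 - xx t ^ 2) with hsdef
  have h5 : -(2 * xx t * ((1 - xx t ^ 2) * s / 2)) / (2 * s) = -(xx t * (1 - xx t ^ 2)) / 2 := by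
    field_simp
  rw [h5]
  linear_combination (-(xx t * (1 - xx t ^ 2)) / 2) * hs2

theorem unit (t : ℝ) : vv t ^ 2 + F.eval (xx t) ^ 2 = 1 := by
  have hx := xx_sq_lt t
  have h0 : 0 < 4 - xx t ^ 2 := by linarith
  have hs2 := Real.sq_sqrt h0.le
  rw [vv_eq, F_eval, div_pow, mul_pow, hs2]
  ring

theorem xx_neg (t : ℝ) : xx (-t) = -xx t := by
  have hE := E_pos t
  have hD := D_pos t
  have h1 : E (-t) = (E t)⁻¹ := by
    unfold E
    rw [mul_neg, Real.exp_neg]
  have h2 : D (-t) = D t / E t := by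
    unfold D
    rw [h1]
    have : (E t)⁻¹ ^ 2 + (E t)⁻¹ + 1 = (E t ^ 2 + E t + 1) / E t ^ 2 := by
      field_simp
      ring
    rw [this, Real.sqrt_div (by positivity), Real.sqrt_sq hE.le]
  unfold xx
  rw [h1, h2]
  field_simp
  ring

/-- The geodesic. -/
noncomputable def γ (k : ℕ) : ℝ → J k := curve k F xx vv

theorem γ_geodesic (hk : 3 ≤ k) : IsGeodesic k (γ k) :=
  curve_geodesic (F_deg hk) xx_deriv vv_deriv unit

theorem xx_cont : Continuous xx :=
  continuous_iff_continuousAt.2 fun t => (xx_deriv t).continuousAt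

theorem vv_cont : Continuous vv :=
  continuous_iff_continuousAt.2 fun t => (vv_deriv t).continuousAt

theorem Fx_cont : Continuous (fun t => F.eval (xx t)) := F.continuous.comp xx_cont

theorem γs_x (s t : ℝ) : HasDerivAt (fun t => (γ k (t - s)).1) (vv (t - s)) t :=
  (xx_deriv (t - s)).comp_sub_const t s

theorem γs_u (s : ℝ) (j : Fin (k + 1)) (t : ℝ) :
    HasDerivAt (fun t => (γ k (t - s)).2 j) (U' F xx vv (k - (j : ℕ)) (t - s)) t :=
  ((U_props F xx_cont vv_cont (k - (j : ℕ))).2.2 (t - s)).comp_sub_const t s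

theorem γs_horizontal (s a b : ℝ) : IsHorizontal k (fun t => γ k (t - s)) a b := by
  refine smooth_horizontal (γs_x s) (vv_cont.comp (by fun_prop)) (γs_u s)
    (fun j => (U_props F xx_cont vv_cont _).2.1.comp (by fun_prop)) fun j t => ?_
  have hj := j.2
  have e : k - ((j.castSucc : Fin (k + 1)) : ℕ) = (k - ((j.succ : Fin (k + 1)) : ℕ)) + 1 := by
    rw [Fin.val_succ, Fin.val_castSucc]; omega
  rw [e]
  rfl

theorem γs_last (s t : ℝ) : deriv (fun t => (γ k (t - s)).2 (Fin.last k)) t
    = F.eval (xx (t - s)) := by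
  rw [(γs_u s (Fin.last k) t).deriv]
  simp [U']

theorem γs_length (s a b : ℝ) : length k (fun t => γ k (t - s)) a b = b - a := by
  unfold length
  have : ∀ t, Real.sqrt (deriv (fun t => (γ k (t - s)).1) t ^ 2 +
      deriv (fun t => (γ k (t - s)).2 (Fin.last k)) t ^ 2) = 1 := fun t => by
    rw [γs_last, (γs_x s t).deriv, unit]; simp
  simp [this]

theorem γ_reach {a b : ℝ} (hab : a ≤ b) : Reach k (γ k a) (γ k b) (b - a) := by
  intro a'
  refine ⟨a' + (b - a), fun t => γ k (t - (a' - a)), by linarith, γs_horizontal _ _ _, ?_, ?_, ?_⟩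
  · simp
  · simp only; congr 1; ring
  · rw [γs_length]; linarith

theorem F_abs_le {x : ℝ} (hx : |x| ≤ 2) : F.eval x ^ 2 ≤ 1 := by
  have h : x ^ 2 ≤ 4 := by
    have := sq_le_sq' (neg_le_of_abs_le hx) (le_of_abs_le hx)
    linarith
  rw [F_eval]
  nlinarith [mul_nonneg (sq_nonneg (1 - x ^ 2)) (sub_nonneg.2 h)]

/-! ### Long minimizing pieces -/

/-- The calibrating function. -/
noncomputable def G (x : ℝ) : ℝ := Real.sqrt (1 - F.eval x ^ 2)

theorem G_cont : Continuous G := by
  unfold G
  exact (continuous_const.sub (F.continuous.pow 2)).sqrt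

theorem G_le (x : ℝ) : |G x| ≤ 1 := by
  unfold G
  rw [abs_of_nonneg (Real.sqrt_nonneg _), Real.sqrt_le_one]
  nlinarith [sq_nonneg (F.eval x)]

/-- Its primitive. -/
noncomputable def Φ (x : ℝ) : ℝ := ∫ y in (0 : ℝ)..x, G y

theorem Φ_deriv (x : ℝ) : HasDerivAt Φ (G x) x :=
  intervalIntegral.integral_hasDerivAt_right (G_cont.intervalIntegrable _ _)
    G_cont.stronglyMeasurable.stronglyMeasurableAtFilter G_cont.continuousAt

theorem Φ_lip (x y : ℝ) : |Φ x - Φ y| ≤ 1 * |x - y| := by
  have h : Φ x - Φ y = ∫ z in y..x, G z := by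
    unfold Φ
    rw [intervalIntegral.integral_interval_sub_left (G_cont.intervalIntegrable _ _)
      (G_cont.intervalIntegrable _ _)]
  rw [h]
  exact intervalIntegral.norm_integral_le_of_norm_le_const (C := 1) (f := G) fun z _ => G_le z

theorem Φ_integral {c : ℝ → J k} {a b : ℝ} (hab : a ≤ b) (hc : IsHorizontal k c a b) :
    ∫ t in a..b, G (c t).1 * deriv (fun s => (c s).1) t = Φ (c b).1 - Φ (c a).1 := by
  have hac := AC.lip Φ_lip hc.acx
  have := hac.integral_deriv_eq_sub
  rw [← this]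
  refine intervalIntegral.integral_congr_ae ?_
  filter_upwards [ae_diff hab hc] with t ht hm
  rw [uIoc_of_le hab] at hm
  obtain ⟨h1, -, -⟩ := ht (Ioc_subset_Icc_self hm)
  exact (HasDerivAt.comp (h₂ := Φ) t (Φ_deriv (c t).1) h1.hasDerivAt).deriv.symm

theorem G_xx (t : ℝ) : G (xx t) = vv t := by
  unfold G
  have := unit t
  rw [show 1 - F.eval (xx t) ^ 2 = vv t ^ 2 by linarith, Real.sqrt_sq (vv_pos t).le]

theorem γ_calib (hk : 3 ≤ k) {a b : ℝ} (hab : a ≤ b) :
    (W k F (γ k b) - W k F (γ k a)) + (Φ (γ k b).1 - Φ (γ k a).1) = b - a := by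
  have hH : IsHorizontal k (fun t => γ k (t - 0)) a b := γs_horizontal 0 a b
  have h1 := W_integral hab hH (F_deg hk)
  have h2 := Φ_integral hab hH
  simp only [sub_zero] at h1 h2
  rw [← h1, ← h2, ← intervalIntegral.integral_add]
  · have : ∀ t, F.eval (γ k t).1 * deriv (fun s => (γ k s).2 (Fin.last k)) t +
        G (γ k t).1 * deriv (fun s => (γ k s).1) t = 1 := by
      intro t
      have e1 := γs_last (k := k) 0 t
      have e2 := (γs_x (k := k) 0 t).deriv
      simp only [sub_zero] at e1 e2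
      rw [e1, e2]
      change F.eval (xx t) * F.eval (xx t) + G (xx t) * vv t = 1
      rw [G_xx]
      have := unit t
      linarith
    simp [this]
  · have e1 : (fun t => F.eval (γ k t).1 * deriv (fun s => (γ k s).2 (Fin.last k)) t)
        = fun t => F.eval (xx t) * F.eval (xx t) := by
      funext t
      have e1 := γs_last (k := k) 0 t
      simp only [sub_zero] at e1
      rw [e1]; rfl
    rw [e1]
    exact (Fx_cont.mul Fx_cont).intervalIntegrable _ _
  · have e1 : (fun t => G (γ k t).1 * deriv (fun s => (γ k s).1) t)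
        = fun t => G (xx t) * vv t := by
      funext t
      have e1 := (γs_x (k := k) 0 t).deriv
      simp only [sub_zero] at e1
      rw [e1]; rfl
    rw [e1]
    exact ((G_cont.comp xx_cont).mul vv_cont).intervalIntegrable _ _

theorem xx_nonneg {t : ℝ} (ht : 0 ≤ t) : 0 ≤ xx t := by
  have hD := D_pos t
  have hE : 1 ≤ E t := by
    unfold E
    exact Real.one_le_exp (by positivity)
  unfold xx
  exact div_nonneg (by linarith) hD.le

theorem F_near {t : ℝ} (ht : 0 ≤ t) : 1 - (9 / 2) / E t ≤ F.eval (xx t) := by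
  have hx := xx_nonneg ht
  have hx2 := xx_sq_lt t
  have hx1 : xx t < 1 := (abs_lt.1 (xx_abs_lt t)).2
  have hD := D_pos t
  have hE := E_pos t
  have h1 := one_sub_sq t
  have h2 : 1 - xx t ^ 2 ≤ 3 / E t := by
    rw [h1, D_sq, div_le_div_iff₀ (by positivity) hE]
    nlinarith
  have h3 : (9 / 2) / E t = (3 / 2) * (3 / E t) := by ring
  rw [F_eval, h3]
  have h4 : 1 - (3 / 2 * xx t - 1 / 2 * xx t ^ 3) = (1 - xx t) ^ 2 * (2 + xx t) / 2 := by ring
  have h5 : (1 - xx t) ^ 2 * (2 + xx t) / 2 ≤ (3 / 2) * (1 - xx t ^ 2) := by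
    have : (3 / 2) * (1 - xx t ^ 2) - (1 - xx t) ^ 2 * (2 + xx t) / 2
        = (1 - xx t) * (1 + 4 * xx t + xx t ^ 2) / 2 := by ring
    have h6 : 0 ≤ (1 - xx t) * (1 + 4 * xx t + xx t ^ 2) / 2 := by
      have : 0 ≤ 1 - xx t := by linarith
      positivity
    linarith
  nlinarith

/-- Far out, long pieces of the geodesic are minimizing. -/
theorem long_min (hk : 3 ≤ k) {ℓ : ℝ} (hℓ : 0 < ℓ) : ∃ S : ℝ, ∀ (a b : ℝ) (c : ℝ → J k),
    a ≤ b → IsHorizontal k c a b → c a = γ k S → c b = γ k (S + ℓ) → ℓ ≤ length k c a b := by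
  set S : ℝ := 9 / 4 * ℓ ^ 2 with hS
  have hS0 : 0 ≤ S := by positivity
  refine ⟨S, fun a b c hab hc ha hb => ?_⟩
  have hsp := speed_intervalIntegrable hc
  have hd1 : IntervalIntegrable (deriv (fun s => (c s).1)) volume a b :=
    hc.acx.intervalIntegrable_deriv
  have hd2 : IntervalIntegrable (deriv (fun s => (c s).2 (Fin.last k))) volume a b :=
    (hc.acu (Fin.last k)).intervalIntegrable_deriv
  have hcx : ContinuousOn (fun t => (c t).1) (uIcc a b) := hc.acx.continuousOn
  by_cases hstrip : ∀ t ∈ Icc a b, |(c t).1| ≤ 2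
  · have h1 := W_integral hab hc (F_deg hk)
    have h2 := Φ_integral hab hc
    have h3 := γ_calib hk (show S ≤ S + ℓ by linarith)
    rw [ha, hb] at h1 h2
    have i1 : IntervalIntegrable
        (fun t => F.eval (c t).1 * deriv (fun s => (c s).2 (Fin.last k)) t) volume a b :=
      hd2.continuousOn_mul (F.continuous.comp_continuousOn hcx)
    have i2 : IntervalIntegrable
        (fun t => G (c t).1 * deriv (fun s => (c s).1) t) volume a b :=
      hd1.continuousOn_mul (G_cont.comp_continuousOn hcx)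
    have h4 : ∫ t in a..b, (F.eval (c t).1 * deriv (fun s => (c s).2 (Fin.last k)) t +
        G (c t).1 * deriv (fun s => (c s).1) t) ≤ length k c a b := by
      unfold length
      refine intervalIntegral.integral_mono_on hab (i1.add i2) hsp fun t ht => ?_
      refine Real.le_sqrt_of_sq_le ?_
      have h5 := F_abs_le (hstrip t ht)
      have h6 : F.eval (c t).1 ^ 2 + G (c t).1 ^ 2 = 1 := by
        unfold G
        rw [Real.sq_sqrt (by linarith)]; ring
      set f := F.eval (c t).1
      set g := G (c t).1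
      set w1 := deriv (fun s => (c s).1) t
      set w2 := deriv (fun s => (c s).2 (Fin.last k)) t
      have h7 : (f * w2 + g * w1) ^ 2 + (f * w1 - g * w2) ^ 2
          = (f ^ 2 + g ^ 2) * (w1 ^ 2 + w2 ^ 2) := by ring
      rw [h6, one_mul] at h7
      nlinarith [sq_nonneg (f * w1 - g * w2)]
    rw [intervalIntegral.integral_add i1 i2, h1, h2] at h4
    linarith
  · push Not at hstrip
    obtain ⟨t0, ht0, hbig⟩ := hstrip
    have hca : (c a).1 = xx S := by rw [ha]; rfl
    have hcb : (c b).1 = xx (S + ℓ) := by rw [hb]; rfl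
    have hx1 := xx_abs_lt S
    have hx2 := xx_abs_lt (S + ℓ)
    have hm1 : IsHorizontal k c a b := hc
    have ac1 : AbsolutelyContinuousOnInterval (fun t => (c t).1) a t0 := hc.acx.mono (by
      rw [uIcc_of_le hab, uIcc_of_le ht0.1]; exact Icc_subset_Icc_right ht0.2)
    have ac2 : AbsolutelyContinuousOnInterval (fun t => (c t).1) t0 b := hc.acx.mono (by
      rw [uIcc_of_le hab, uIcc_of_le ht0.2]; exact Icc_subset_Icc_left ht0.1)
    have j1 := ac1.integral_deriv_eq_sub
    have j2 := ac2.integral_deriv_eq_sub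
    have k1 : |(c t0).1 - (c a).1| ≤ ∫ t in a..t0, |deriv (fun s => (c s).1) t| := by
      rw [← j1]; exact intervalIntegral.abs_integral_le_integral_abs ht0.1
    have k2 : |(c b).1 - (c t0).1| ≤ ∫ t in t0..b, |deriv (fun s => (c s).1) t| := by
      rw [← j2]; exact intervalIntegral.abs_integral_le_integral_abs ht0.2
    have k3 : ∫ t in a..b, |deriv (fun s => (c s).1) t|
        = (∫ t in a..t0, |deriv (fun s => (c s).1) t|) +
          ∫ t in t0..b, |deriv (fun s => (c s).1) t| :=
      (intervalIntegral.integral_add_adjacent_intervals ac1.intervalIntegrable_deriv.abs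
        ac2.intervalIntegrable_deriv.abs).symm
    have k4 : 1 ≤ |(c t0).1 - (c a).1| := by
      have := abs_sub_abs_le_abs_sub (c t0).1 (c a).1
      rw [hca] at this ⊢
      linarith
    have k5 : 1 ≤ |(c b).1 - (c t0).1| := by
      have := abs_sub_abs_le_abs_sub (c t0).1 (c b).1
      rw [abs_sub_comm, hcb] at this
      rw [hcb]
      linarith
    have k6 : 2 ≤ ∫ t in a..b, |deriv (fun s => (c s).1) t| := by linarith
    -- the vertical part
    have l1 : ∫ t in a..b, deriv (fun s => (c s).2 (Fin.last k)) t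
        = (c b).2 (Fin.last k) - (c a).2 (Fin.last k) :=
      (hc.acu (Fin.last k)).integral_deriv_eq_sub
    have l2 : (c b).2 (Fin.last k) - (c a).2 (Fin.last k)
        = ∫ t in S..(S + ℓ), F.eval (xx t) := by
      rw [ha, hb]
      simp only [γ, curve, Fin.val_last, Nat.sub_self, U]
      rw [intervalIntegral.integral_interval_sub_left (Fx_cont.intervalIntegrable _ _)
        (Fx_cont.intervalIntegrable _ _)]
    have hES : 9 / 4 * ℓ ^ 2 ≤ E S := by
      have h1 : S + 1 ≤ Real.exp S := Real.add_one_le_exp S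
      have h2 : Real.exp S ≤ E S := by
        unfold E
        refine Real.exp_le_exp.2 ?_
        have : (1 : ℝ) ≤ Real.sqrt 3 := by
          rw [Real.one_le_sqrt]; norm_num
        nlinarith
      linarith
    have l3 : (1 - 2 / ℓ ^ 2) * ℓ ≤ ∫ t in S..(S + ℓ), F.eval (xx t) := by
      have : ∫ t in S..(S + ℓ), (1 - 2 / ℓ ^ 2) ≤ ∫ t in S..(S + ℓ), F.eval (xx t) := by
        refine intervalIntegral.integral_mono_on (by linarith) (by simp)
          (Fx_cont.intervalIntegrable _ _) fun t ht => ?_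
        have ht0 : 0 ≤ t := hS0.trans ht.1
        refine le_trans ?_ (F_near ht0)
        have hEt : E S ≤ E t := by
          unfold E
          refine Real.exp_le_exp.2 ?_
          have : (0 : ℝ) ≤ Real.sqrt 3 := Real.sqrt_nonneg _
          nlinarith [ht.1]
        have : (9 / 2) / E t ≤ 2 / ℓ ^ 2 := by
          rw [div_le_div_iff₀ (E_pos t) (by positivity)]
          nlinarith
        linarith
      rw [intervalIntegral.integral_const] at this
      simp only [add_sub_cancel_left, smul_eq_mul] at this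
      linarith
    have l4 : (1 - 2 / ℓ ^ 2) * ℓ ≤ ∫ t in a..b, |deriv (fun s => (c s).2 (Fin.last k)) t| := by
      have := intervalIntegral.integral_mono_on hab hd2 hd2.abs
        (fun t _ => le_abs_self (deriv (fun s => (c s).2 (Fin.last k)) t))
      rw [l1, l2] at this
      linarith
    -- combine
    have m1 : ∫ t in a..b, (2 * |deriv (fun s => (c s).1) t| +
        ℓ * |deriv (fun s => (c s).2 (Fin.last k)) t|) ≤
        ∫ t in a..b, Real.sqrt (4 + ℓ ^ 2) * Real.sqrt (deriv (fun s => (c s).1) t ^ 2 +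
          deriv (fun s => (c s).2 (Fin.last k)) t ^ 2) := by
      refine intervalIntegral.integral_mono_on hab
        ((hd1.abs.const_mul 2).add (hd2.abs.const_mul ℓ)) (hsp.const_mul _) fun t _ => ?_
      rw [← Real.sqrt_mul (by positivity)]
      refine Real.le_sqrt_of_sq_le ?_
      set w1 := deriv (fun s => (c s).1) t
      set w2 := deriv (fun s => (c s).2 (Fin.last k)) t
      have e1 := sq_abs w1
      have e2 := sq_abs w2
      nlinarith [sq_nonneg (2 * |w2| - ℓ * |w1|)]
    rw [intervalIntegral.integral_add (hd1.abs.const_mul 2) (hd2.abs.const_mul ℓ),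
      intervalIntegral.integral_const_mul, intervalIntegral.integral_const_mul,
      intervalIntegral.integral_const_mul] at m1
    change _ ≤ Real.sqrt (4 + ℓ ^ 2) * length k c a b at m1
    have m2 : 2 + ℓ ^ 2 ≤ Real.sqrt (4 + ℓ ^ 2) * length k c a b := by
      have e : ℓ * ((1 - 2 / ℓ ^ 2) * ℓ) = ℓ ^ 2 - 2 := by
        field_simp
      nlinarith [mul_le_mul_of_nonneg_left l4 hℓ.le]
    have m3 : Real.sqrt (4 + ℓ ^ 2) ≤ ℓ + 2 / ℓ := by
      rw [Real.sqrt_le_left (by positivity)]
      have : (ℓ + 2 / ℓ) ^ 2 = ℓ ^ 2 + 4 + 4 / ℓ ^ 2 := by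
        field_simp
        ring
      rw [this]
      have : 0 < 4 / ℓ ^ 2 := by positivity
      linarith
    have m4 : 0 ≤ length k c a b := length_nonneg hab
    have m5 : 2 + ℓ ^ 2 ≤ (ℓ + 2 / ℓ) * length k c a b :=
      m2.trans (mul_le_mul_of_nonneg_right m3 m4)
    have m6 : (ℓ + 2 / ℓ) * ℓ = 2 + ℓ ^ 2 := by
      field_simp
      ring
    have m7 : 0 < ℓ + 2 / ℓ := by positivity
    exact le_of_mul_le_mul_left (by linarith) m7

end Q195.Jet
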