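import Pool.Agent.Q195.JetCut.Defs
import Pool.Agent.Q195.JetCut.AC

/-!
# The functions `W_P` and moments of horizontal curves
-/

open MeasureTheory Set Polynomial

namespace Q195.Jet

variable {k : ℕ}

/-- The function `W_P` with `dW_P = P(x) du_k` along horizontal curves, for `deg P ≤ k`. -/
noncomputable def W (k : ℕ) (P : ℝ[X]) (q : J k) : ℝ :=
  ∑ j : Fin (k + 1), (-1) ^ (k - (j : ℕ)) * (derivative^[k - (j : ℕ)] P).eval q.1 * q.2 j

theorem W_hasDerivAt {P : ℝ[X]} (hP : P.natDegree ≤ k) {c : ℝ → J k} {t x' : ℝ}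
    {u' : Fin (k + 1) → ℝ} (hx : HasDerivAt (fun s => (c s).1) x' t)
    (hu : ∀ j, HasDerivAt (fun s => (c s).2 j) (u' j) t)
    (hc : ∀ j : Fin k, u' j.castSucc = (c t).2 j.succ * x') :
    HasDerivAt (fun s => W k P (c s)) (P.eval (c t).1 * u' (Fin.last k)) t := by
  unfold W
  have h1 : ∀ j : Fin (k + 1), HasDerivAt
      (fun s => (-1) ^ (k - (j : ℕ)) * (derivative^[k - (j : ℕ)] P).eval (c s).1 * (c s).2 j)
      ((-1) ^ (k - (j : ℕ)) * ((derivative^[k - (j : ℕ) + 1] P).eval (c t).1 * x') * (c t).2 j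
        + (-1) ^ (k - (j : ℕ)) * (derivative^[k - (j : ℕ)] P).eval (c t).1 * u' j) t := by
    intro j
    have h2 : HasDerivAt (fun s => (derivative^[k - (j : ℕ)] P).eval (c s).1)
        ((derivative^[k - (j : ℕ) + 1] P).eval (c t).1 * x') t := by
      rw [Function.iterate_succ_apply']
      exact ((derivative^[k - (j : ℕ)] P).hasDerivAt (c t).1).comp t hx
    exact (h2.const_mul _).mul (hu j)
  have h3 := HasDerivAt.fun_sum (u := Finset.univ) fun j _ => h1 j
  refine h3.congr_deriv ?_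
  rw [Finset.sum_add_distrib, Fin.sum_univ_succ, Fin.sum_univ_castSucc (n := k)
    (f := fun j : Fin (k + 1) =>
      (-1) ^ (k - (j : ℕ)) * (derivative^[k - (j : ℕ)] P).eval (c t).1 * u' j)]
  have hz : derivative^[k + 1] P = 0 :=
    Polynomial.iterate_derivative_eq_zero (by omega)
  have h4 : (∑ i : Fin k, (-1 : ℝ) ^ (k - ((i.succ : Fin (k + 1)) : ℕ)) *
      ((derivative^[k - ((i.succ : Fin (k + 1)) : ℕ) + 1] P).eval (c t).1 * x') * (c t).2 i.succ)
      = - ∑ i : Fin k, (-1 : ℝ) ^ (k - ((i.castSucc : Fin (k + 1)) : ℕ)) *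
        (derivative^[k - ((i.castSucc : Fin (k + 1)) : ℕ)] P).eval (c t).1 * u' i.castSucc := by
    rw [← Finset.sum_neg_distrib]
    refine Finset.sum_congr rfl fun i _ => ?_
    have hi := i.2
    have e1 : k - ((i.succ : Fin (k + 1)) : ℕ) + 1 = k - (i : ℕ) := by
      rw [Fin.val_succ]; omega
    have e2 : k - ((i.castSucc : Fin (k + 1)) : ℕ) = (k - ((i.succ : Fin (k + 1)) : ℕ)) + 1 := by
      rw [Fin.val_succ, Fin.val_castSucc]; omega
    rw [e2, hc i, pow_succ]
    ring
  rw [h4]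
  simp only [Fin.val_zero, Nat.sub_zero, hz, Polynomial.eval_zero, Fin.val_last, Nat.sub_self,
    pow_zero, Function.iterate_zero, id_eq]
  ring

/-- `W_P` is absolutely continuous along horizontal curves. -/
theorem W_ac {c : ℝ → J k} {a b : ℝ} (hc : IsHorizontal k c a b) (P : ℝ[X]) :
    AbsolutelyContinuousOnInterval (fun t => W k P (c t)) a b := by
  unfold W
  refine AC.sum _ fun j _ => ?_
  have h1 := (AC.polyEval hc.acx (derivative^[k - (j : ℕ)] P)).const_mul
    ((-1) ^ (k - (j : ℕ)))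
  exact h1.fun_mul (hc.acu j)

/-- Almost everywhere differentiability of the coordinates of a horizontal curve. -/
theorem ae_diff {c : ℝ → J k} {a b : ℝ} (hab : a ≤ b) (hc : IsHorizontal k c a b) :
    ∀ᵐ t, t ∈ Icc a b → DifferentiableAt ℝ (fun s => (c s).1) t ∧
      (∀ j, DifferentiableAt ℝ (fun s => (c s).2 j) t) ∧
      ∀ j : Fin k, deriv (fun s => (c s).2 j.castSucc) t
        = (c t).2 j.succ * deriv (fun s => (c s).1) t := by
  have h1 := hc.acx.ae_differentiableAt
  have h2 : ∀ᵐ t, ∀ j, t ∈ uIcc a b → DifferentiableAt ℝ (fun s => (c s).2 j) t :=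
    ae_all_iff.2 fun j => (hc.acu j).ae_differentiableAt
  filter_upwards [h1, h2, hc.contact] with t h3 h4 h5 ht
  have ht' : t ∈ uIcc a b := by rwa [uIcc_of_le hab]
  exact ⟨h3 ht', fun j => h4 j ht', h5 ht⟩

/-- The moment formula. -/
theorem W_integral {c : ℝ → J k} {a b : ℝ} (hab : a ≤ b) (hc : IsHorizontal k c a b) {P : ℝ[X]}
    (hP : P.natDegree ≤ k) :
    ∫ t in a..b, P.eval (c t).1 * deriv (fun s => (c s).2 (Fin.last k)) t
      = W k P (c b) - W k P (c a) := by
  rw [← (W_ac hc P).integral_deriv_eq_sub]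
  refine intervalIntegral.integral_congr_ae ?_
  filter_upwards [ae_diff hab hc] with t ht hm
  rw [uIoc_of_le hab] at hm
  obtain ⟨h1, h2, h3⟩ := ht (Ioc_subset_Icc_self hm)
  exact ((W_hasDerivAt hP h1.hasDerivAt (fun j => (h2 j).hasDerivAt) h3).deriv).symm

/-- The values `x` and `W_P`, `deg P ≤ k`, determine the point. -/
theorem ext_of_W {p q : J k} (hx : p.1 = q.1)
    (hW : ∀ P : ℝ[X], P.natDegree ≤ k → W k P p = W k P q) : p = q := by
  refine Prod.ext hx (funext fun j => ?_)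
  have key : ∀ q : J k, W k ((X - C q.1) ^ (k - (j : ℕ))) q
      = (-1) ^ (k - (j : ℕ)) * ((k - (j : ℕ)).factorial : ℝ) * q.2 j := by
    intro q
    unfold W
    rw [Finset.sum_eq_single j]
    · congr 2
      rw [Polynomial.iterate_derivative_X_sub_pow_self]
      simp
    · intro i _ hij
      have hj := j.2
      have hi := i.2
      have hne : (i : ℕ) ≠ (j : ℕ) := fun h => hij (Fin.ext h)
      have : (derivative^[k - (i : ℕ)] ((X - C q.1) ^ (k - (j : ℕ)) : ℝ[X])).eval q.1 = 0 := by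
        rw [Polynomial.iterate_derivative_X_sub_pow]
        rcases Nat.lt_or_gt_of_ne hne with h | h
        · have : Nat.descFactorial (k - (j : ℕ)) (k - (i : ℕ)) = 0 :=
            Nat.descFactorial_eq_zero_iff_lt.2 (by omega)
          rw [this]; simp
        · have : k - (j : ℕ) - (k - (i : ℕ)) ≠ 0 := by omega
          simp [this]
      rw [this]; ring
    · intro h; exact absurd (Finset.mem_univ j) h
  have hdeg : ((X - C p.1) ^ (k - (j : ℕ)) : ℝ[X]).natDegree ≤ k := by
    rw [Polynomial.natDegree_pow, Polynomial.natDegree_X_sub_C]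
    omega
  have h1 := hW _ hdeg
  rw [key p] at h1
  rw [hx, key q] at h1
  have h2 : ((-1 : ℝ) ^ (k - (j : ℕ)) * ((k - (j : ℕ)).factorial : ℝ)) ≠ 0 :=
    mul_ne_zero (pow_ne_zero _ (by norm_num)) (by exact_mod_cast Nat.factorial_ne_zero _)
  exact mul_left_cancel₀ h2 h1

end Q195.Jet
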