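import Pool.Agent.Q195.JetCut.Moments

/-!
# Concatenation of horizontal curves and staircases
-/

open MeasureTheory Set Polynomial Filter

namespace Q195.Jet

variable {k : ℕ}

theorem speed_measurable (c : ℝ → J k) : Measurable
    (fun t => Real.sqrt (deriv (fun s => (c s).1) t ^ 2 +
      deriv (fun s => (c s).2 (Fin.last k)) t ^ 2)) :=
  (((measurable_deriv _).pow_const 2).add ((measurable_deriv _).pow_const 2)).sqrt

theorem speed_intervalIntegrable {c : ℝ → J k} {a b : ℝ} (hc : IsHorizontal k c a b) :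
    IntervalIntegrable (fun t => Real.sqrt (deriv (fun s => (c s).1) t ^ 2 +
      deriv (fun s => (c s).2 (Fin.last k)) t ^ 2)) volume a b := by
  have h1 := hc.acx.intervalIntegrable_deriv
  have h2 := (hc.acu (Fin.last k)).intervalIntegrable_deriv
  refine (h1.abs.add h2.abs).mono_fun (speed_measurable c).aestronglyMeasurable ?_
  refine Filter.Eventually.of_forall fun t => ?_
  have hA : ∀ x y : ℝ, ‖Real.sqrt (x ^ 2 + y ^ 2)‖ ≤ ‖|x| + |y|‖ := by
    intro x y
    rw [Real.norm_of_nonneg (Real.sqrt_nonneg _), Real.norm_of_nonneg (by positivity)]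
    rw [Real.sqrt_le_left (by positivity)]
    nlinarith [abs_nonneg x, abs_nonneg y, sq_abs x, sq_abs y,
      mul_nonneg (abs_nonneg x) (abs_nonneg y)]
  exact hA _ _

theorem length_nonneg {c : ℝ → J k} {a b : ℝ} (hab : a ≤ b) : 0 ≤ length k c a b :=
  intervalIntegral.integral_nonneg hab fun _ _ => Real.sqrt_nonneg _

theorem smooth_horizontal {c : ℝ → J k} {x' : ℝ → ℝ} {u' : Fin (k + 1) → ℝ → ℝ} {a b : ℝ}
    (hx : ∀ t, HasDerivAt (fun s => (c s).1) (x' t) t) (hx' : Continuous x')
    (hu : ∀ j t, HasDerivAt (fun s => (c s).2 j) (u' j t) t) (hu' : ∀ j, Continuous (u' j))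
    (hc : ∀ (j : Fin k) t, u' j.castSucc t = (c t).2 j.succ * x' t) :
    IsHorizontal k c a b where
  acx := AC.of_deriv hx hx'
  acu j := AC.of_deriv (hu j) (hu' j)
  contact := by
    refine Filter.Eventually.of_forall fun t _ j => ?_
    rw [(hx t).deriv, (hu _ t).deriv, hc j t]

/-- `q` can be reached from `p` by a horizontal curve of length at most `L`. -/
def Reach (k : ℕ) (p q : J k) (L : ℝ) : Prop :=
  ∀ a : ℝ, ∃ (b : ℝ) (c : ℝ → J k), a ≤ b ∧ IsHorizontal k c a b ∧ c a = p ∧ c b = q ∧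
    length k c a b ≤ L

theorem Reach.mono {p q : J k} {L L' : ℝ} (h : Reach k p q L) (hL : L ≤ L') :
    Reach k p q L' := by
  intro a
  obtain ⟨b, c, h1, h2, h3, h4, h5⟩ := h a
  exact ⟨b, c, h1, h2, h3, h4, h5.trans hL⟩

theorem glue_horizontal {c₁ c₂ : ℝ → J k} {a b d : ℝ} (hab : a ≤ b) (hbd : b ≤ d)
    (h1 : IsHorizontal k c₁ a b) (h2 : IsHorizontal k c₂ b d) (h12 : c₁ b = c₂ b) :
    IsHorizontal k (fun t => if t ≤ b then c₁ t else c₂ t) a d ∧
    length k (fun t => if t ≤ b then c₁ t else c₂ t) a d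
      = length k c₁ a b + length k c₂ b d := by
  set c : ℝ → J k := fun t => if t ≤ b then c₁ t else c₂ t with hcdef
  have hleft : ∀ t ∈ uIcc a b, c₁ t = c t := by
    intro t ht
    rw [uIcc_of_le hab] at ht
    simp [hcdef, ht.2]
  have hright : ∀ t ∈ uIcc b d, c₂ t = c t := by
    intro t ht
    rw [uIcc_of_le hbd] at ht
    rcases eq_or_lt_of_le ht.1 with h | h
    · subst h; simp [hcdef, h12]
    · simp [hcdef, not_le.2 h]
  have evl : ∀ t, t < b → c =ᶠ[nhds t] c₁ := by
    intro t ht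
    filter_upwards [Iio_mem_nhds ht] with s hs
    simp [hcdef, le_of_lt (mem_Iio.1 hs)]
  have evr : ∀ t, b < t → c =ᶠ[nhds t] c₂ := by
    intro t ht
    filter_upwards [Ioi_mem_nhds ht] with s hs
    simp [hcdef, not_le.2 (mem_Ioi.1 hs)]
  have dl : ∀ t, t < b → ∀ φ : J k → ℝ, deriv (fun s => φ (c s)) t = deriv (fun s => φ (c₁ s)) t :=
    fun t ht φ => Filter.EventuallyEq.deriv_eq ((evl t ht).fun_comp φ)
  have dr : ∀ t, b < t → ∀ φ : J k → ℝ, deriv (fun s => φ (c s)) t = deriv (fun s => φ (c₂ s)) t :=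
    fun t ht φ => Filter.EventuallyEq.deriv_eq ((evr t ht).fun_comp φ)
  have hne : ∀ᵐ t : ℝ, t ≠ b := by
    simp [ae_iff, measure_singleton]
  have hH : IsHorizontal k c a d := by
    refine ⟨?_, fun j => ?_, ?_⟩
    · exact AC.glue hab hbd (AC.congr h1.acx fun t ht => by rw [hleft t ht])
        (AC.congr h2.acx fun t ht => by rw [hright t ht])
    · exact AC.glue hab hbd (AC.congr (h1.acu j) fun t ht => by rw [hleft t ht])
        (AC.congr (h2.acu j) fun t ht => by rw [hright t ht])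
    · filter_upwards [h1.contact, h2.contact, hne] with t k1 k2 k3 ht j
      rcases lt_or_gt_of_ne k3 with h | h
      · have e1 := dl t h (fun q => q.2 j.castSucc)
        have e2 := dl t h (fun q => q.1)
        rw [e1, e2, k1 ⟨ht.1, h.le⟩ j, hleft t (by rw [uIcc_of_le hab]; exact ⟨ht.1, h.le⟩)]
      · have e1 := dr t h (fun q => q.2 j.castSucc)
        have e2 := dr t h (fun q => q.1)
        rw [e1, e2, k2 ⟨h.le, ht.2⟩ j, hright t (by rw [uIcc_of_le hbd]; exact ⟨h.le, ht.2⟩)]
  refine ⟨hH, ?_⟩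
  have i1 : IntervalIntegrable (fun t => Real.sqrt (deriv (fun s => (c s).1) t ^ 2 +
      deriv (fun s => (c s).2 (Fin.last k)) t ^ 2)) volume a d := speed_intervalIntegrable hH
  have i2 := i1.mono_set (c := a) (d := b) (by
    rw [uIcc_of_le hab, uIcc_of_le (hab.trans hbd)]; exact Icc_subset_Icc_right hbd)
  have i3 := i1.mono_set (c := b) (d := d) (by
    rw [uIcc_of_le hbd, uIcc_of_le (hab.trans hbd)]; exact Icc_subset_Icc_left hab)
  unfold length
  rw [← intervalIntegral.integral_add_adjacent_intervals i2 i3]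
  congr 1
  · refine intervalIntegral.integral_congr_ae ?_
    filter_upwards [hne] with t ht hm
    rw [uIoc_of_le hab] at hm
    have h : t < b := lt_of_le_of_ne hm.2 ht
    have e1 := dl t h (fun q => q.2 (Fin.last k))
    have e2 := dl t h (fun q => q.1)
    rw [e1, e2]
  · refine intervalIntegral.integral_congr_ae ?_
    filter_upwards with t hm
    rw [uIoc_of_le hbd] at hm
    have h : b < t := hm.1
    have e1 := dr t h (fun q => q.2 (Fin.last k))
    have e2 := dr t h (fun q => q.1)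
    rw [e1, e2]

theorem Reach.trans {p q r : J k} {L L' : ℝ} (h : Reach k p q L) (h' : Reach k q r L') :
    Reach k p r (L + L') := by
  intro a
  obtain ⟨b, c₁, hab, h1, ha, hb, hL⟩ := h a
  obtain ⟨d, c₂, hbd, h2, hb', hd, hL'⟩ := h' b
  obtain ⟨h3, h4⟩ := glue_horizontal hab hbd h1 h2 (hb.trans hb'.symm)
  refine ⟨d, _, hab.trans hbd, h3, ?_, ?_, ?_⟩
  · simp [hab, ha]
  · rcases eq_or_lt_of_le hbd with h | h
    · subst h
      simp only [le_refl, if_true]
      rw [hb, ← hb', hd]
    · simp [not_le.2 h, hd]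
  · rw [h4]; linarith

/-- The extension of the coordinates `u_j` by zero. -/
def ext (k : ℕ) (u : Fin (k + 1) → ℝ) (i : ℕ) : ℝ := if h : i < k + 1 then u ⟨i, h⟩ else 0

/-- The `u`-coordinates along the flow of `X₁`. -/
noncomputable def flowU (k : ℕ) (u : Fin (k + 1) → ℝ) (j : ℕ) (τ : ℝ) : ℝ :=
  ∑ m ∈ Finset.range (k + 1), ext k u (j + m) * (τ ^ m / (m.factorial : ℝ))

theorem flowU_zero (u : Fin (k + 1) → ℝ) (j : ℕ) : flowU k u j 0 = ext k u j := by
  unfold flowU
  rw [Finset.sum_eq_single 0]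
  · simp
  · intro m _ hm
    simp [hm]
  · simp

theorem flowU_big (u : Fin (k + 1) → ℝ) (j : ℕ) (hj : k + 1 ≤ j) (τ : ℝ) : flowU k u j τ = 0 := by
  unfold flowU
  refine Finset.sum_eq_zero fun m _ => ?_
  have : ext k u (j + m) = 0 := by
    unfold ext; rw [dif_neg (by omega)]
  rw [this, zero_mul]

theorem flowU_hasDerivAt (u : Fin (k + 1) → ℝ) (j : ℕ) (τ : ℝ) :
    HasDerivAt (flowU k u j) (flowU k u (j + 1) τ) τ := by
  have h1 : ∀ m : ℕ, HasDerivAt (fun τ : ℝ => ext k u (j + m) * (τ ^ m / (m.factorial : ℝ)))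
      (ext k u (j + m) * (m * τ ^ (m - 1) / (m.factorial : ℝ))) τ := fun m =>
    ((hasDerivAt_pow m τ).div_const _).const_mul _
  have h2 : HasDerivAt (flowU k u j)
      (∑ m ∈ Finset.range (k + 1), ext k u (j + m) * (m * τ ^ (m - 1) / (m.factorial : ℝ))) τ :=
    HasDerivAt.fun_sum fun m _ => h1 m
  refine h2.congr_deriv ?_
  unfold flowU
  rw [Finset.sum_range_succ', Finset.sum_range_succ]
  have h3 : ext k u (j + 1 + k) = 0 := by
    unfold ext; rw [dif_neg (by omega)]
  rw [h3]
  simp only [Nat.cast_zero, zero_mul, zero_div, mul_zero, add_zero]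
  refine Finset.sum_congr rfl fun m _ => ?_
  have h4 : ((m + 1 : ℕ) : ℝ) ≠ 0 := by positivity
  have h5 : (m.factorial : ℝ) ≠ 0 := by positivity
  rw [show j + (m + 1) = j + 1 + m by ring, Nat.factorial_succ, Nat.add_sub_cancel]
  push_cast at h4 ⊢
  field_simp

theorem flowU_continuous (u : Fin (k + 1) → ℝ) (j : ℕ) : Continuous (flowU k u j) :=
  continuous_iff_continuousAt.2 fun τ => (flowU_hasDerivAt u j τ).continuousAt

/-- Moving along `X₁` changes `x` and no `W_P`. -/
theorem reach_x (p : J k) (y : ℝ) : ∃ q : J k, q.1 = y ∧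
    (∀ P : ℝ[X], P.natDegree ≤ k → W k P q = W k P p) ∧ Reach k p q |y - p.1| := by
  obtain ⟨ε, hε, hε2⟩ : ∃ ε : ℝ, ε ^ 2 = 1 ∧ ε * |y - p.1| = y - p.1 := by
    rcases le_total 0 (y - p.1) with h | h
    · exact ⟨1, by norm_num, by rw [abs_of_nonneg h]; ring⟩
    · exact ⟨-1, by norm_num, by rw [abs_of_nonpos h]; ring⟩
  set q : J k := (y, fun j => flowU k p.2 j (y - p.1)) with hq
  have base : ∀ a : ℝ, ∃ c : ℝ → J k, IsHorizontal k c a (a + |y - p.1|) ∧ c a = p ∧
      c (a + |y - p.1|) = q ∧ length k c a (a + |y - p.1|) = |y - p.1| ∧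
      ∀ t, deriv (fun s => (c s).2 (Fin.last k)) t = 0 := by
    intro a
    set c : ℝ → J k := fun t => (p.1 + ε * (t - a), fun j => flowU k p.2 j (ε * (t - a))) with hc
    have hlin : ∀ t, HasDerivAt (fun s : ℝ => ε * (s - a)) ε t := fun t => by
      simpa using ((hasDerivAt_id t).sub_const a).const_mul ε
    have hx : ∀ t, HasDerivAt (fun s => (c s).1) ε t := fun t => by
      simpa [hc] using (hlin t).const_add p.1
    have hu : ∀ (j : Fin (k + 1)) t, HasDerivAt (fun s => (c s).2 j)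
        (flowU k p.2 (j + 1) (ε * (t - a)) * ε) t := fun j t =>
      HasDerivAt.comp (h₂ := flowU k p.2 j) t (flowU_hasDerivAt p.2 j (ε * (t - a))) (hlin t)
    have hlast : ∀ t, deriv (fun s => (c s).2 (Fin.last k)) t = 0 := fun t => by
      rw [(hu _ t).deriv, Fin.val_last, flowU_big _ _ le_rfl, zero_mul]
    refine ⟨c, ?_, ?_, ?_, ?_, hlast⟩
    · refine smooth_horizontal hx continuous_const hu (fun j => ?_) fun j t => ?_
      · exact ((flowU_continuous p.2 _).comp (by fun_prop)).mul continuous_const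
      · simp [hc]
    · refine Prod.ext (by simp [hc]) (funext fun j => ?_)
      have hj := j.2
      simp only [hc, sub_self, mul_zero, flowU_zero, ext, dif_pos hj]
    · refine Prod.ext ?_ (funext fun j => ?_)
      · simp only [hc, hq, add_sub_cancel_left, hε2]; ring
      · simp only [hc, hq, add_sub_cancel_left, hε2]
    · unfold length
      have : ∀ t, Real.sqrt (deriv (fun s => (c s).1) t ^ 2 +
          deriv (fun s => (c s).2 (Fin.last k)) t ^ 2) = 1 := fun t => by
        rw [hlast t, (hx t).deriv, hε]; simp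
      simp [this]
  refine ⟨q, rfl, fun P hP => ?_, fun a => ?_⟩
  · obtain ⟨c, h1, h2, h3, -, h5⟩ := base 0
    have := W_integral (by simp) h1 hP
    rw [h2, h3] at this
    simp only [h5, mul_zero, intervalIntegral.integral_zero] at this
    linarith
  · obtain ⟨c, h1, h2, h3, h4, -⟩ := base a
    exact ⟨_, c, by simp, h1, h2, h3, h4.le⟩

/-- Moving along `X₂` by `h`. -/
theorem reach_u (p : J k) (h : ℝ) : ∃ q : J k, q.1 = p.1 ∧
    (∀ P : ℝ[X], P.natDegree ≤ k → W k P q = W k P p + h * P.eval p.1) ∧ Reach k p q |h| := by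
  obtain ⟨ε, hε, hε2⟩ : ∃ ε : ℝ, ε ^ 2 = 1 ∧ ε * |h| = h := by
    rcases le_total 0 h with h' | h'
    · exact ⟨1, by norm_num, by rw [abs_of_nonneg h']; ring⟩
    · exact ⟨-1, by norm_num, by rw [abs_of_nonpos h']; ring⟩
  set q : J k := (p.1, fun j => p.2 j + if j = Fin.last k then h else 0) with hq
  have base : ∀ a : ℝ, ∃ c : ℝ → J k, IsHorizontal k c a (a + |h|) ∧ c a = p ∧
      c (a + |h|) = q ∧ length k c a (a + |h|) = |h| ∧ (∀ t, (c t).1 = p.1) ∧
      ∀ t, deriv (fun s => (c s).2 (Fin.last k)) t = ε := by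
    intro a
    set c : ℝ → J k := fun t => (p.1, fun j => p.2 j + if j = Fin.last k then ε * (t - a) else 0)
      with hc
    have hlin : ∀ t, HasDerivAt (fun s : ℝ => ε * (s - a)) ε t := fun t => by
      simpa using ((hasDerivAt_id t).sub_const a).const_mul ε
    have hx : ∀ t, HasDerivAt (fun s => (c s).1) 0 t := fun t => by
      simpa [hc] using hasDerivAt_const t p.1
    have hu : ∀ (j : Fin (k + 1)) t, HasDerivAt (fun s => (c s).2 j)
        (if j = Fin.last k then ε else 0) t := fun j t => by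
      by_cases hj : j = Fin.last k
      · simpa [hc, hj] using (hlin t).const_add (p.2 j)
      · simpa [hc, hj] using hasDerivAt_const t (p.2 j)
    have hlast : ∀ t, deriv (fun s => (c s).2 (Fin.last k)) t = ε := fun t => by
      rw [(hu _ t).deriv]; simp
    refine ⟨c, ?_, ?_, ?_, ?_, fun t => rfl, hlast⟩
    · refine smooth_horizontal hx continuous_const hu (fun j => continuous_const) fun j t => ?_
      simp only [mul_zero, ite_eq_right_iff]
      intro hj
      exact absurd hj (Fin.castSucc_lt_last j).ne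
    · refine Prod.ext (by simp [hc]) (funext fun j => ?_)
      simp [hc]
    · refine Prod.ext (by simp [hc, hq]) (funext fun j => ?_)
      simp only [hc, hq, add_sub_cancel_left, hε2]
    · unfold length
      have : ∀ t, Real.sqrt (deriv (fun s => (c s).1) t ^ 2 +
          deriv (fun s => (c s).2 (Fin.last k)) t ^ 2) = 1 := fun t => by
        rw [hlast t, (hx t).deriv, hε]; simp
      simp [this]
  refine ⟨q, rfl, fun P hP => ?_, fun a => ?_⟩
  · obtain ⟨c, h1, h2, h3, -, h5, h6⟩ := base 0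
    have := W_integral (by simp) h1 hP
    rw [h2, h3] at this
    simp only [h5, h6, intervalIntegral.integral_const, smul_eq_mul, zero_add, sub_zero] at this
    have e : |h| * (P.eval p.1 * ε) = h * P.eval p.1 := by
      calc |h| * (P.eval p.1 * ε) = (ε * |h|) * P.eval p.1 := by ring
        _ = h * P.eval p.1 := by rw [hε2]
    linarith
  · obtain ⟨c, h1, h2, h3, h4, -⟩ := base a
    exact ⟨_, c, by simp, h1, h2, h3, h4.le⟩

/-- Staircases. -/
theorem stairs (p : J k) (y h : ℕ → ℝ) (n : ℕ) : ∃ q : J k, q.1 = y n ∧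
    (∀ P : ℝ[X], P.natDegree ≤ k →
      W k P q = W k P p + ∑ i ∈ Finset.range n, h i * P.eval (y i)) ∧
    Reach k p q (|y 0 - p.1| + ∑ i ∈ Finset.range n, (|h i| + |y (i + 1) - y i|)) := by
  induction n with
  | zero =>
    obtain ⟨q, h1, h2, h3⟩ := reach_x p (y 0)
    exact ⟨q, h1, fun P hP => by simp [h2 P hP], by simpa using h3⟩
  | succ n ih =>
    obtain ⟨q, h1, h2, h3⟩ := ih
    obtain ⟨q', h1', h2', h3'⟩ := reach_u q (h n)
    obtain ⟨q'', h1'', h2'', h3''⟩ := reach_x q' (y (n + 1))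
    refine ⟨q'', h1'', fun P hP => ?_, ?_⟩
    · rw [h2'' P hP, h2' P hP, h2 P hP, Finset.sum_range_succ, h1]; ring
    · refine ((h3.trans h3').trans h3'').mono (le_of_eq ?_)
      rw [Finset.sum_range_succ, h1', h1]; ring

end Q195.Jet
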