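import Pool.Agent.Q195.JetCut.Main

/-!
# Long central pieces of the geodesic are not minimizing
-/

open MeasureTheory Set Polynomial Filter

namespace Q195.Jet

variable {k : ℕ}

/-- The Lagrange basis polynomials for the nodes `0, 1, …, k`. -/
noncomputable def B (k : ℕ) (i : Fin (k + 1)) : ℝ[X] :=
  Lagrange.basis Finset.univ (fun i : Fin (k + 1) => ((i : ℕ) : ℝ)) i

theorem B_interp {P : ℝ[X]} (hP : P.natDegree ≤ k) {δ : ℝ} (hδ : 0 < δ) (x : ℝ) :
    P.eval x = ∑ i : Fin (k + 1), P.eval ((i : ℕ) / δ) * (B k i).eval (δ * x) := by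
  set Q : ℝ[X] := P.comp (C δ⁻¹ * X) with hQ
  have hdeg : Q.natDegree ≤ k := by
    refine (Polynomial.natDegree_comp_le).trans ?_
    have h1 : (C δ⁻¹ * X : ℝ[X]).natDegree ≤ 1 := by compute_degree
    calc P.natDegree * (C δ⁻¹ * X : ℝ[X]).natDegree ≤ k * 1 := Nat.mul_le_mul hP h1
      _ = k := mul_one k
  have hinj : Set.InjOn (fun i : Fin (k + 1) => ((i : ℕ) : ℝ))
      ((Finset.univ : Finset (Fin (k + 1))) : Set (Fin (k + 1))) := by
    intro i _ j _ h
    have h' : ((i : ℕ) : ℝ) = ((j : ℕ) : ℝ) := h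
    exact Fin.ext (by exact_mod_cast h')
  have hlt : Q.degree < (Finset.univ : Finset (Fin (k + 1))).card := by
    rw [Finset.card_univ, Fintype.card_fin]
    refine lt_of_le_of_lt Polynomial.degree_le_natDegree ?_
    exact_mod_cast Nat.lt_succ_of_le hdeg
  have h := Lagrange.eq_interpolate hinj hlt
  rw [Lagrange.interpolate_apply] at h
  have h2 := congrArg (fun R : ℝ[X] => R.eval (δ * x)) h
  simp only [Polynomial.eval_finsetSum, Polynomial.eval_mul, Polynomial.eval_C] at h2
  have h3 : ∀ y, Q.eval y = P.eval (y / δ) := by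
    intro y
    simp only [hQ, Polynomial.eval_comp, Polynomial.eval_mul, Polynomial.eval_C,
      Polynomial.eval_X]
    rw [div_eq_inv_mul]
  rw [h3, mul_div_cancel_left₀ _ hδ.ne'] at h2
  rw [h2]
  refine Finset.sum_congr rfl fun i _ => ?_
  rw [h3]
  rfl

theorem exists_delta (k : ℕ) : ∃ δ : ℝ, 0 < δ ∧ ∀ x : ℝ, |x| ≤ 1 →
    ∑ i : Fin (k + 1), |(B k i).eval (δ * x) - (B k i).eval 0| ≤ 1 / 2 := by
  have hc : Continuous (fun y : ℝ => ∑ i : Fin (k + 1), |(B k i).eval y - (B k i).eval 0|) :=
    continuous_finsetSum _ fun i _ => ((B k i).continuous.sub continuous_const).abs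
  have h0 : (fun y : ℝ => ∑ i : Fin (k + 1), |(B k i).eval y - (B k i).eval 0|) 0 < 1 / 2 := by
    simp
  have h1 := hc.continuousAt.eventually (gt_mem_nhds h0)
  obtain ⟨ε, hε, h2⟩ := Metric.eventually_nhds_iff.1 h1
  refine ⟨ε / 2, by positivity, fun x hx => le_of_lt (h2 ?_)⟩
  rw [Real.dist_eq, sub_zero, abs_mul, abs_of_pos (by positivity : (0 : ℝ) < ε / 2)]
  calc ε / 2 * |x| ≤ ε / 2 * 1 := by gcongr
    _ < ε := by linarith

theorem Fx_odd (t : ℝ) : F.eval (xx (-t)) = -F.eval (xx t) := by
  rw [xx_neg, F_eval, F_eval]; ring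

theorem Fx_integral (τ : ℝ) : ∫ t in (-τ)..τ, F.eval (xx t) = 0 := by
  have h := intervalIntegral.integral_comp_neg (fun t => F.eval (xx t)) (a := -τ) (b := τ)
  simp only [Fx_odd, neg_neg, intervalIntegral.integral_neg] at h
  linarith

theorem Fx_abs (t : ℝ) : |F.eval (xx t)| ≤ 1 := by
  have := unit t
  rw [← sq_le_one_iff_abs_le_one]
  nlinarith [sq_nonneg (vv t)]

theorem short_cut (k : ℕ) : ∃ τ L : ℝ, 0 < τ ∧ Reach k (γ k (-τ)) (γ k τ) L ∧ L < 2 * τ := by
  obtain ⟨δ, hδ, hB⟩ := exists_delta k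
  set M : ℝ := (k : ℝ) / δ + 1 with hM
  have hM0 : 0 ≤ M := by positivity
  set τ : ℝ := 2 * (k + 1) * M + 2 with hτ
  have hτ0 : 0 < τ := by positivity
  set h : ℕ → ℝ := fun i => if hi : i < k + 1 then
    ∫ t in (-τ)..τ, (B k ⟨i, hi⟩).eval (δ * xx t) * F.eval (xx t) else 0 with hh
  set y : ℕ → ℝ := fun i => if i < k + 1 then (i : ℝ) / δ else xx τ with hy
  obtain ⟨q, hq1, hq2, hq3⟩ := stairs (γ k (-τ)) y h (k + 1)
  have hBc : ∀ i, Continuous (fun t => (B k i).eval (δ * xx t)) := fun i =>
    (B k i).continuous.comp (continuous_const.mul xx_cont)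
  have hW : ∀ P : ℝ[X], P.natDegree ≤ k →
      W k P (γ k τ) = W k P (γ k (-τ)) + ∑ i ∈ Finset.range (k + 1), h i * P.eval (y i) := by
    intro P hP
    have hH : IsHorizontal k (fun t => γ k (t - 0)) (-τ) τ := γs_horizontal 0 _ _
    have h1 := W_integral (by linarith) hH hP
    have e1 : ∀ t, deriv (fun s => (γ k (s - 0)).2 (Fin.last k)) t = F.eval (xx (t - 0)) :=
      fun t => γs_last 0 t
    simp only [e1] at h1
    simp only [sub_zero] at h1
    have e2 : ∀ t, (γ k t).1 = xx t := fun t => rfl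
    simp only [e2] at h1
    rw [← sub_eq_iff_eq_add', ← h1]
    have e3 : ∀ t, P.eval (xx t) * F.eval (xx t) = ∑ i : Fin (k + 1),
        P.eval ((i : ℕ) / δ) * ((B k i).eval (δ * xx t) * F.eval (xx t)) := by
      intro t
      rw [B_interp hP hδ (xx t), Finset.sum_mul]
      exact Finset.sum_congr rfl fun i _ => by ring
    simp only [e3]
    rw [intervalIntegral.integral_finsetSum]
    · rw [← Fin.sum_univ_eq_sum_range (fun i => h i * P.eval (y i)) (k + 1)]
      refine Finset.sum_congr rfl fun i _ => ?_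
      have hi := i.2
      rw [intervalIntegral.integral_const_mul]
      simp only [hh, hy, dif_pos hi, if_pos hi]
      ring
    · intro i _
      exact (continuous_const.mul ((hBc i).mul Fx_cont)).intervalIntegrable _ _
  have hqe : q = γ k τ := by
    refine ext_of_W ?_ fun P hP => ?_
    · rw [hq1]; simp [hy, γ, curve]
    · rw [hq2 P hP, hW P hP]
  have hsum : ∑ i ∈ Finset.range (k + 1), |h i| ≤ τ := by
    rw [← Fin.sum_univ_eq_sum_range (fun i => |h i|) (k + 1)]
    have e1 : ∀ i : Fin (k + 1), |h i| ≤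
        ∫ t in (-τ)..τ, |(B k i).eval (δ * xx t) - (B k i).eval 0| := by
      intro i
      have hi := i.2
      have e2 : h i = ∫ t in (-τ)..τ,
          ((B k i).eval (δ * xx t) - (B k i).eval 0) * F.eval (xx t) := by
        have e3 : ∫ t in (-τ)..τ, (B k i).eval 0 * F.eval (xx t) = 0 := by
          rw [intervalIntegral.integral_const_mul, Fx_integral, mul_zero]
        have e4 : IntervalIntegrable (fun t => (B k i).eval (δ * xx t) * F.eval (xx t)) volume
            (-τ) τ := ((hBc i).mul Fx_cont).intervalIntegrable _ _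
        have e5 : IntervalIntegrable (fun t => (B k i).eval 0 * F.eval (xx t)) volume
            (-τ) τ := (continuous_const.mul Fx_cont).intervalIntegrable _ _
        simp only [sub_mul]
        rw [intervalIntegral.integral_sub e4 e5, e3, sub_zero]
        simp only [hh, dif_pos hi]
      rw [e2]
      refine (intervalIntegral.abs_integral_le_integral_abs (by linarith)).trans ?_
      refine intervalIntegral.integral_mono_on (by linarith) ?_ ?_ fun t _ => ?_
      · exact ((((hBc i).sub continuous_const).mul Fx_cont).abs).intervalIntegrable _ _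
      · exact (((hBc i).sub continuous_const).abs).intervalIntegrable _ _
      · rw [abs_mul]
        exact mul_le_of_le_one_right (abs_nonneg _) (Fx_abs t)
    calc ∑ i : Fin (k + 1), |h i|
        ≤ ∑ i : Fin (k + 1), ∫ t in (-τ)..τ, |(B k i).eval (δ * xx t) - (B k i).eval 0| :=
          Finset.sum_le_sum fun i _ => e1 i
      _ = ∫ t in (-τ)..τ, ∑ i : Fin (k + 1), |(B k i).eval (δ * xx t) - (B k i).eval 0| := by
          rw [intervalIntegral.integral_finsetSum]
          intro i _
          exact (((hBc i).sub continuous_const).abs).intervalIntegrable _ _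
      _ ≤ ∫ t in (-τ)..τ, (1 / 2 : ℝ) := by
          refine intervalIntegral.integral_mono_on (by linarith) ?_ (by simp) fun t _ => ?_
          · exact (continuous_finsetSum _ fun i _ =>
              ((hBc i).sub continuous_const).abs).intervalIntegrable _ _
          · exact hB (xx t) (xx_abs_lt t).le
      _ = τ := by
          rw [intervalIntegral.integral_const, smul_eq_mul]; ring
  have hyM : ∀ i, |y i| ≤ M := by
    intro i
    by_cases hi : i < k + 1
    · simp only [hy, if_pos hi]
      rw [abs_of_nonneg (by positivity)]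
      have : (i : ℝ) ≤ k := by exact_mod_cast Nat.lt_succ_iff.1 hi
      have : (i : ℝ) / δ ≤ k / δ := by gcongr
      linarith
    · simp only [hy, if_neg hi]
      have := xx_abs_lt τ
      have h2 : 0 ≤ (k : ℝ) / δ := by positivity
      linarith
  have hcost : |y 0 - (γ k (-τ)).1| +
      ∑ i ∈ Finset.range (k + 1), (|h i| + |y (i + 1) - y i|) ≤ 1 + τ + 2 * (k + 1) * M := by
    have c1 : |y 0 - (γ k (-τ)).1| ≤ 1 := by
      have : y 0 = 0 := by simp [hy]
      rw [this, zero_sub, abs_neg]
      exact (xx_abs_lt (-τ)).le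
    have c2 : ∑ i ∈ Finset.range (k + 1), |y (i + 1) - y i| ≤ (k + 1) * (2 * M) := by
      calc ∑ i ∈ Finset.range (k + 1), |y (i + 1) - y i|
          ≤ ∑ i ∈ Finset.range (k + 1), 2 * M := by
            refine Finset.sum_le_sum fun i _ => ?_
            have a1 := abs_sub (y (i + 1)) (y i)
            have a2 := hyM (i + 1)
            have a3 := hyM i
            linarith
        _ = (k + 1) * (2 * M) := by
            rw [Finset.sum_const, Finset.card_range, nsmul_eq_mul]; push_cast; ring
    rw [Finset.sum_add_distrib]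
    nlinarith
  refine ⟨τ, 1 + τ + 2 * (k + 1) * M, hτ0, hqe ▸ hq3.mono hcost, ?_⟩
  rw [hτ]
  linarith

theorem bddBelow_lengths (p q : J k) : BddBelow {L : ℝ | ∃ (a b : ℝ) (c : ℝ → J k), a ≤ b ∧
    IsHorizontal k c a b ∧ c a = p ∧ c b = q ∧ L = length k c a b} := by
  refine ⟨0, ?_⟩
  rintro L ⟨a, b, c, hab, -, -, -, rfl⟩
  exact length_nonneg hab

theorem ccDist_le_of_reach {p q : J k} {L : ℝ} (h : Reach k p q L) : ccDist k p q ≤ L := by
  obtain ⟨b, c, hab, h1, h2, h3, h4⟩ := h 0
  exact (csInf_le (bddBelow_lengths p q) ⟨0, b, c, hab, h1, h2, h3, rfl⟩).trans h4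

/-- For `k ≥ 3` the geodesic `γ` is not equi-optimal. -/
theorem not_equiOptimal (hk : 3 ≤ k) : ¬ EquiOptimal k (γ k) := by
  intro hE
  obtain ⟨τ, L, hτ, hR, hL⟩ := short_cut k
  have hup : cutTime k (fun t => γ k (t - τ)) ≤ ((2 * τ : ℝ) : EReal) := by
    unfold cutTime
    refine iSup₂_le fun t ht => ?_
    rw [EReal.coe_le_coe_iff]
    by_contra hlt
    push Not at hlt
    have h1 := ht.2
    rw [γs_length, sub_zero] at h1
    have h2 : Reach k (γ k (0 - τ)) (γ k (t - τ)) (L + (t - τ - τ)) := by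
      rw [zero_sub]
      exact hR.trans (γ_reach (by linarith))
    have h3 := ccDist_le_of_reach h2
    linarith
  obtain ⟨S, hS⟩ := long_min hk (show 0 < 2 * τ + 1 by linarith)
  have hlo : ((2 * τ + 1 : ℝ) : EReal) ≤ cutTime k (fun t => γ k (t - (-S))) := by
    unfold cutTime
    refine le_iSup₂_of_le (2 * τ + 1) ⟨by linarith, ?_⟩ le_rfl
    rw [γs_length, sub_zero]
    refine le_antisymm ?_ ?_
    · refine le_csInf ?_ ?_
      · exact ⟨_, 0, 2 * τ + 1, fun t => γ k (t - (-S)), by linarith, γs_horizontal _ _ _, rfl,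
          rfl, rfl⟩
      · rintro L ⟨a, b, c, hab, h1, h2, h3, rfl⟩
        refine hS a b c hab h1 ?_ ?_
        · rw [h2]
          simp only [zero_sub, neg_neg]
        · rw [h3]
          simp only [sub_neg_eq_add]
          rw [add_comm]
    · refine (ccDist_le_of_reach (γ_reach (by linarith))).trans ?_
      linarith
  have h1 := hE τ (-S)
  rw [h1] at hup
  have h2 := hlo.trans hup
  rw [EReal.coe_le_coe_iff] at h2
  linarith

end Q195.Jet
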